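import Pool.Agent.H3.BI.Stm1

/-!
# Project BD, part KDI: discrete Laplacian of the powers `(|w|^2 + a)^(-γ)`
-/

set_option autoImplicit false

open scoped ENNReal
open Finset

namespace Pool.Agent.H42.BD

open Pool.Agent.H3.BI

theorem T2 {φ φ' φ'' : ℝ → ℝ} {K b : ℝ} {k : ℕ} (h0 : φ 0 = 0) (h0' : φ' 0 = 0)
    (hd : ∀ u ∈ Set.Icc 0 b, HasDerivAt φ (φ' u) u)
    (hd' : ∀ u ∈ Set.Icc 0 b, HasDerivAt φ' (φ'' u) u)
    (hb : ∀ u ∈ Set.Icc 0 b, |φ'' u| ≤ K * u ^ k) (hK : 0 ≤ K) :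
    ∀ u ∈ Set.Icc 0 b, |φ u| ≤ K * u ^ (k + 2) := by
  have key : ∀ (f f' : ℝ → ℝ) (j : ℕ), f 0 = 0 → (∀ u ∈ Set.Icc 0 b, HasDerivAt f (f' u) u) →
      (∀ u ∈ Set.Icc 0 b, |f' u| ≤ K * u ^ j) → ∀ u ∈ Set.Icc 0 b, |f u| ≤ K * u ^ (j + 1) := by
    intro f f' j hf0 hf hbd u hu
    have h := norm_image_sub_le_of_norm_deriv_le_segment' (f := f) (f' := f') (C := K * u ^ j)
      (a := 0) (b := u) (fun x hx => (hf x ⟨hx.1, hx.2.trans hu.2⟩).hasDerivWithinAt)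
      (fun x hx => by
        rw [Real.norm_eq_abs]
        exact (hbd x ⟨hx.1, hx.2.le.trans hu.2⟩).trans
          (mul_le_mul_of_nonneg_left (pow_le_pow_left₀ hx.1 hx.2.le j) hK)) u
      ⟨hu.1, le_refl u⟩
    rw [hf0, sub_zero, sub_zero, Real.norm_eq_abs] at h
    rw [pow_succ, ← mul_assoc]
    exact h
  exact key φ φ' (k + 1) h0 hd (key φ' φ'' k h0' hd' hb)

theorem hd_plus (m : ℝ) {u : ℝ} (hu : 0 < 1 + u) :
    HasDerivAt (fun u : ℝ => (1 + u) ^ (-m)) (-m * (1 + u) ^ (-m - 1)) u := by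
  have h := (((hasDerivAt_id u).const_add 1).rpow_const (p := -m) (Or.inl hu.ne'))
  simpa using h

theorem hd_minus (m : ℝ) {u : ℝ} (hu : 0 < 1 - u) :
    HasDerivAt (fun u : ℝ => (1 - u) ^ (-m)) (m * (1 - u) ^ (-m - 1)) u := by
  have h := (((hasDerivAt_id u).const_sub 1).rpow_const (p := -m) (Or.inl hu.ne'))
  simpa using h

/-- Bound of negative powers near `1`. -/
theorem pow_bd {m x : ℝ} (hm : 0 < m) (hx : 1 / 2 ≤ x) : x ^ (-m) ≤ 2 ^ m := by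
  have h1 : x ^ (-m) ≤ (1 / 2 : ℝ) ^ (-m) :=
    Real.rpow_le_rpow_of_nonpos (by norm_num) hx (by linarith)
  refine h1.trans (le_of_eq ?_)
  rw [one_div, Real.inv_rpow (by norm_num), Real.rpow_neg (by norm_num), inv_inv]

theorem psi_bd (m : ℝ) (hm : 0 < m) : ∀ u ∈ Set.Icc (0 : ℝ) (1 / 2),
    |(1 + u) ^ (-m) + (1 - u) ^ (-m) - 2| ≤ 2 * m * (m + 1) * 2 ^ (m + 2) * u ^ 2 := by
  have h := T2 (φ := fun u : ℝ => (1 + u) ^ (-m) + (1 - u) ^ (-m) - 2)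
    (φ' := fun u => -m * (1 + u) ^ (-m - 1) + m * (1 - u) ^ (-m - 1))
    (φ'' := fun u => m * (m + 1) * (1 + u) ^ (-m - 2) + m * (m + 1) * (1 - u) ^ (-m - 2))
    (K := 2 * m * (m + 1) * 2 ^ (m + 2)) (b := 1 / 2) (k := 0) (by norm_num)
    (by simp) ?_ ?_ ?_ (by positivity)
  · simpa using h
  · intro u hu
    have h1 : (0 : ℝ) < 1 + u := by linarith [hu.1]
    have h2 : (0 : ℝ) < 1 - u := by linarith [hu.2]
    exact ((hd_plus m h1).add (hd_minus m h2)).sub_const 2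
  · intro u hu
    have h1 : (0 : ℝ) < 1 + u := by linarith [hu.1]
    have h2 : (0 : ℝ) < 1 - u := by linarith [hu.2]
    have e1 := (hd_plus (m + 1) h1).const_mul (-m)
    have e2 := (hd_minus (m + 1) h2).const_mul m
    have e3 := e1.add e2
    have a1 : -(m + 1) = -m - 1 := by ring
    have a2 : -(m + 1) - 1 = -m - 2 := by ring
    simp only [a1] at e3
    have a3 : -m - 1 - 1 = -m - 2 := by ring
    rw [a3] at e3
    refine e3.congr_deriv ?_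
    ring
  · intro u hu
    have h1 : (0 : ℝ) < 1 + u := by linarith [hu.1]
    have h2 : (0 : ℝ) < 1 - u := by linarith [hu.2]
    have b1 : (1 + u) ^ (-m - 2) ≤ 2 ^ (m + 2) := by
      have := pow_bd (m := m + 2) (x := 1 + u) (by linarith) (by linarith [hu.1])
      rwa [show -(m + 2) = -m - 2 by ring] at this
    have b2 : (1 - u) ^ (-m - 2) ≤ 2 ^ (m + 2) := by
      have := pow_bd (m := m + 2) (x := 1 - u) (by linarith) (by linarith [hu.2])
      rwa [show -(m + 2) = -m - 2 by ring] at this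
    have c1 : 0 ≤ (1 + u) ^ (-m - 2) := Real.rpow_nonneg h1.le _
    have c2 : 0 ≤ (1 - u) ^ (-m - 2) := Real.rpow_nonneg h2.le _
    have c3 : 0 < m * (m + 1) := by positivity
    rw [abs_of_nonneg (by positivity), pow_zero, mul_one]
    nlinarith

theorem phi_bd (m : ℝ) (hm : 0 < m) : ∀ u ∈ Set.Icc (0 : ℝ) (1 / 2),
    |(1 + u) ^ (-m) + (1 - u) ^ (-m) - 2 - m * (m + 1) * u ^ 2| ≤
      m * (m + 1) * (2 * (m + 2) * (m + 3) * 2 ^ (m + 4)) * u ^ 4 := by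
  have h := T2 (φ := fun u : ℝ => (1 + u) ^ (-m) + (1 - u) ^ (-m) - 2 - m * (m + 1) * u ^ 2)
    (φ' := fun u => -m * (1 + u) ^ (-m - 1) + m * (1 - u) ^ (-m - 1) - m * (m + 1) * (2 * u))
    (φ'' := fun u => m * (m + 1) * (1 + u) ^ (-m - 2) + m * (m + 1) * (1 - u) ^ (-m - 2) -
      m * (m + 1) * 2)
    (K := m * (m + 1) * (2 * (m + 2) * (m + 3) * 2 ^ (m + 4))) (b := 1 / 2) (k := 2)
    (by norm_num) (by simp) ?_ ?_ ?_ (by positivity)
  · simpa using h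
  · intro u hu
    have h1 : (0 : ℝ) < 1 + u := by linarith [hu.1]
    have h2 : (0 : ℝ) < 1 - u := by linarith [hu.2]
    have h3 := (((hasDerivAt_pow 2 u).const_mul (m * (m + 1))))
    have h4 := (((hd_plus m h1).add (hd_minus m h2)).sub_const 2).sub h3
    refine h4.congr_deriv ?_
    simp
  · intro u hu
    have h1 : (0 : ℝ) < 1 + u := by linarith [hu.1]
    have h2 : (0 : ℝ) < 1 - u := by linarith [hu.2]
    have e1 := (hd_plus (m + 1) h1).const_mul (-m)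
    have e2 := (hd_minus (m + 1) h2).const_mul m
    have e4 := (((hasDerivAt_id u).const_mul 2).const_mul (m * (m + 1)))
    have e3 := (e1.add e2).sub e4
    have a1 : -(m + 1) = -m - 1 := by ring
    simp only [a1] at e3
    have a3 : -m - 1 - 1 = -m - 2 := by ring
    rw [a3] at e3
    refine e3.congr_deriv ?_
    ring
  · intro u hu
    have hp := psi_bd (m + 2) (by linarith) u hu
    rw [show -(m + 2) = -m - 2 by ring, show m + 2 + 1 = m + 3 by ring,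
      show m + 2 + 2 = m + 4 by ring] at hp
    have c3 : 0 < m * (m + 1) := by positivity
    have e : m * (m + 1) * (1 + u) ^ (-m - 2) + m * (m + 1) * (1 - u) ^ (-m - 2) -
      m * (m + 1) * 2 = m * (m + 1) * ((1 + u) ^ (-m - 2) + (1 - u) ^ (-m - 2) - 2) := by ring
    rw [e, abs_mul, abs_of_pos c3]
    have h5 := mul_le_mul_of_nonneg_left hp c3.le
    linarith

/-- First order expansion. -/
theorem one_bd (m : ℝ) (hm : 0 < m) : ∀ u ∈ Set.Icc (0 : ℝ) 1,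
    |(1 + u) ^ (-m) - 1 + m * u| ≤ m * (m + 1) * u ^ 2 := by
  have h := T2 (φ := fun u : ℝ => (1 + u) ^ (-m) - 1 + m * u)
    (φ' := fun u => -m * (1 + u) ^ (-m - 1) + m)
    (φ'' := fun u => m * (m + 1) * (1 + u) ^ (-m - 2))
    (K := m * (m + 1)) (b := 1) (k := 0) (by norm_num)
    (by simp) ?_ ?_ ?_ (by positivity)
  · simpa using h
  · intro u hu
    have h1 : (0 : ℝ) < 1 + u := by linarith [hu.1]
    have h4 := ((hd_plus m h1).sub_const 1).add ((hasDerivAt_id u).const_mul m)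
    refine h4.congr_deriv ?_
    simp
  · intro u hu
    have h1 : (0 : ℝ) < 1 + u := by linarith [hu.1]
    have e1 := ((hd_plus (m + 1) h1).const_mul (-m)).add_const m
    have a1 : -(m + 1) = -m - 1 := by ring
    simp only [a1] at e1
    have a3 : -m - 1 - 1 = -m - 2 := by ring
    rw [a3] at e1
    refine e1.congr_deriv ?_
    ring
  · intro u hu
    have h1 : (0 : ℝ) < 1 + u := by linarith [hu.1]
    have c1 : 0 ≤ (1 + u) ^ (-m - 2) := Real.rpow_nonneg h1.le _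
    have b1 : (1 + u) ^ (-m - 2) ≤ 1 :=
      Real.rpow_le_one_of_one_le_of_nonpos (by linarith [hu.1]) (by linarith)
    have c3 : 0 < m * (m + 1) := by positivity
    rw [abs_of_nonneg (by positivity), pow_zero, mul_one]
    nlinarith

theorem mvt_bd (m : ℝ) (hm : 0 < m) {u : ℝ} (hu : u ∈ Set.Icc (0 : ℝ) 1) :
    |(1 + u) ^ (-m) - 1| ≤ m * (m + 2) * u := by
  have h := one_bd m hm u hu
  have h2 : |(1 + u) ^ (-m) - 1| ≤ |(1 + u) ^ (-m) - 1 + m * u| + m * u := by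
    have := abs_sub ((1 + u) ^ (-m) - 1 + m * u) (m * u)
    rw [add_sub_cancel_right, abs_of_nonneg (mul_nonneg hm.le hu.1)] at this
    exact this
  have h3 : u ^ 2 ≤ u := by nlinarith [hu.1, hu.2]
  have h4 : m * (m + 1) * u ^ 2 ≤ m * (m + 1) * u := mul_le_mul_of_nonneg_left h3 (by positivity)
  linarith

/-- Fourth order expansion at a general point. -/
theorem T4 (m : ℝ) (hm : 0 < m) {q h : ℝ} (hq : 0 < q) (hh : |h| ≤ q / 2) :
    |(q + h) ^ (-m) + (q - h) ^ (-m) - 2 * q ^ (-m) - m * (m + 1) * q ^ (-m - 2) * h ^ 2| ≤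
      m * (m + 1) * (2 * (m + 2) * (m + 3) * 2 ^ (m + 4)) * (q ^ (-m - 4) * h ^ 4) := by
  -- reduction to `h ≥ 0`
  have main : ∀ h : ℝ, 0 ≤ h → h ≤ q / 2 →
      |(q + h) ^ (-m) + (q - h) ^ (-m) - 2 * q ^ (-m) - m * (m + 1) * q ^ (-m - 2) * h ^ 2| ≤
      m * (m + 1) * (2 * (m + 2) * (m + 3) * 2 ^ (m + 4)) * (q ^ (-m - 4) * h ^ 4) := by
    intro h h0 h1
    have hu : h / q ∈ Set.Icc (0 : ℝ) (1 / 2) :=
      ⟨div_nonneg h0 hq.le, by rw [div_le_iff₀ hq]; linarith⟩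
    have hp := phi_bd m hm (h / q) hu
    have e1 : (q + h) ^ (-m) = q ^ (-m) * (1 + h / q) ^ (-m) := by
      rw [← Real.mul_rpow hq.le (by linarith [hu.1])]
      congr 1
      field_simp
    have e2 : (q - h) ^ (-m) = q ^ (-m) * (1 - h / q) ^ (-m) := by
      rw [← Real.mul_rpow hq.le (by linarith [hu.2])]
      congr 1
      field_simp
    have e3 : q ^ (-m - 2) * h ^ 2 = q ^ (-m) * (h / q) ^ 2 := by
      rw [show -m - 2 = -m - (2 : ℕ) by norm_num, Real.rpow_sub_natCast hq.ne', div_pow]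
      ring
    have e4 : q ^ (-m - 4) * h ^ 4 = q ^ (-m) * (h / q) ^ 4 := by
      rw [show -m - 4 = -m - (4 : ℕ) by norm_num, Real.rpow_sub_natCast hq.ne', div_pow]
      ring
    have hqm : 0 < q ^ (-m) := Real.rpow_pos_of_pos hq _
    have e5 : (q + h) ^ (-m) + (q - h) ^ (-m) - 2 * q ^ (-m) - m * (m + 1) * q ^ (-m - 2) * h ^ 2
        = q ^ (-m) * ((1 + h / q) ^ (-m) + (1 - h / q) ^ (-m) - 2 -
          m * (m + 1) * (h / q) ^ 2) := by
      rw [e1, e2, mul_assoc (m * (m + 1)), e3]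
      ring
    rw [e5, abs_mul, abs_of_pos hqm, e4]
    calc q ^ (-m) * |(1 + h / q) ^ (-m) + (1 - h / q) ^ (-m) - 2 - m * (m + 1) * (h / q) ^ 2|
        ≤ q ^ (-m) * (m * (m + 1) * (2 * (m + 2) * (m + 3) * 2 ^ (m + 4)) * (h / q) ^ 4) :=
          mul_le_mul_of_nonneg_left hp hqm.le
      _ = _ := by ring
  rcases le_total 0 h with h0 | h0
  · exact main h h0 (by rwa [abs_of_nonneg h0] at hh)
  · have h1 := main (-h) (by linarith) (by rwa [abs_of_nonpos h0] at hh)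
    have e6 : (q + -h) ^ (-m) + (q - -h) ^ (-m) - 2 * q ^ (-m) -
        m * (m + 1) * q ^ (-m - 2) * (-h) ^ 2 = (q + h) ^ (-m) + (q - h) ^ (-m) - 2 * q ^ (-m) -
        m * (m + 1) * q ^ (-m - 2) * h ^ 2 := by
      rw [sub_neg_eq_add, ← sub_eq_add_neg, neg_sq]
      ring
    rw [e6] at h1
    have e7 : (-h) ^ 4 = h ^ 4 := by ring
    rwa [e7] at h1

theorem qr_add {d : ℕ} (w : Fin d → ℝ) (i : Fin d) (s : ℝ) :
    qr (w + Pi.single i s) = qr w + 2 * s * w i + s ^ 2 := by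
  unfold qr
  have h : ∀ j, (w + (Pi.single i s : Fin d → ℝ)) j ^ 2 =
      w j ^ 2 + (if j = i then 2 * s * w i + s ^ 2 else 0) := by
    intro j
    by_cases hj : j = i
    · subst hj; simp; ring
    · simp [hj]
  simp only [h, Finset.sum_add_distrib, Finset.sum_ite_eq', Finset.mem_univ, if_true]
  ring

theorem PR_eq {d : ℕ} (γ a : ℝ) (w : Fin d → ℝ) :
    PR (fun v => (qr v + a) ^ (-γ)) w =
      (∑ i, ((qr w + a + 1 + 2 * w i) ^ (-γ) + (qr w + a + 1 - 2 * w i) ^ (-γ))) / (2 * d) := by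
  unfold PR
  congr 1
  rw [Fintype.sum_prod_type]
  refine Finset.sum_congr rfl fun i _ => ?_
  rw [Fintype.sum_bool]
  unfold rvec
  simp only [if_true, Bool.false_eq_true, if_false]
  rw [qr_add, qr_add]
  congr 2 <;> ring

theorem qr_nonneg {d : ℕ} (w : Fin d → ℝ) : 0 ≤ qr w := Finset.sum_nonneg fun _ _ => sq_nonneg _

theorem sum4 {d : ℕ} (w : Fin d → ℝ) : ∑ i, w i ^ 4 ≤ qr w ^ 2 := by
  have h : ∀ i ∈ (Finset.univ : Finset (Fin d)), w i ^ 4 ≤ w i ^ 2 * qr w := by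
    intro i _
    have h1 : w i ^ 2 ≤ qr w :=
      Finset.single_le_sum (f := fun i => w i ^ 2) (fun _ _ => sq_nonneg _) (Finset.mem_univ i)
    have h2 : w i ^ 4 = w i ^ 2 * w i ^ 2 := by ring
    rw [h2]
    exact mul_le_mul_of_nonneg_left h1 (sq_nonneg _)
  calc ∑ i, w i ^ 4 ≤ ∑ i, w i ^ 2 * qr w := Finset.sum_le_sum h
    _ = qr w ^ 2 := by rw [← Finset.sum_mul]; unfold qr; ring

/-- **Part KDI.** -/
theorem part_KDI : S_KDI := by
  intro d γ hd hγ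
  set C1 : ℝ := γ * (γ + 1) * (2 * (γ + 2) * (γ + 3) * 2 ^ (γ + 4)) with hC1
  have hC1p : 0 ≤ C1 := by positivity
  have hd0 : (0 : ℝ) < d := by exact_mod_cast (by omega : 0 < d)
  have hd1 : (1 : ℝ) ≤ d := by exact_mod_cast (by omega : 1 ≤ d)
  refine ⟨1 + γ * (γ + 1) + 2 * γ * (γ + 1) * (2 * ((γ + 2) * (γ + 4))) + 32 * C1, ?_, ?_⟩
  · have : 0 ≤ γ * (γ + 1) + 2 * γ * (γ + 1) * (2 * ((γ + 2) * (γ + 4))) + 32 * C1 := by
      positivity
    linarith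
  intro a w hQ1 hw hq
  set Q : ℝ := qr w + a with hQ
  have hQ0 : 0 < Q := by linarith
  have hqn := qr_nonneg w
  set q1 : ℝ := Q + 1 with hq1
  have hq10 : 0 < q1 := by linarith
  have hQg : 0 < Q ^ (-γ - 2) := Real.rpow_pos_of_pos hQ0 _
  -- the average
  have hi : ∀ i, |w i| ≤ Real.sqrt (qr w) := by
    intro i
    rw [← Real.sqrt_sq_eq_abs]
    exact Real.sqrt_le_sqrt (Finset.single_le_sum (f := fun i => w i ^ 2)
      (fun _ _ => sq_nonneg _) (Finset.mem_univ i))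
  have hh : ∀ i, |2 * w i| ≤ q1 / 2 := by
    intro i
    rw [abs_mul, abs_of_pos (by norm_num : (0 : ℝ) < 2)]
    have := hi i
    linarith
  have hT : ∀ i, |(q1 + 2 * w i) ^ (-γ) + (q1 - 2 * w i) ^ (-γ) - 2 * q1 ^ (-γ) -
      γ * (γ + 1) * q1 ^ (-γ - 2) * (2 * w i) ^ 2| ≤ C1 * (q1 ^ (-γ - 4) * (2 * w i) ^ 4) :=
    fun i => T4 γ hγ hq10 (hh i)
  have hPR : |PR (fun v => (qr v + a) ^ (-γ)) w - q1 ^ (-γ) -
      2 * γ * (γ + 1) / d * q1 ^ (-γ - 2) * qr w| ≤ 32 * C1 * Q ^ (-γ - 2) := by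
    rw [PR_eq]
    have e : (∑ i, ((Q + 1 + 2 * w i) ^ (-γ) + (Q + 1 - 2 * w i) ^ (-γ))) / (2 * d) -
        q1 ^ (-γ) - 2 * γ * (γ + 1) / d * q1 ^ (-γ - 2) * qr w =
        (∑ i, ((q1 + 2 * w i) ^ (-γ) + (q1 - 2 * w i) ^ (-γ) - 2 * q1 ^ (-γ) -
          γ * (γ + 1) * q1 ^ (-γ - 2) * (2 * w i) ^ 2)) / (2 * d) := by
      rw [Finset.sum_sub_distrib, Finset.sum_sub_distrib]
      have e1 : ∑ i, γ * (γ + 1) * q1 ^ (-γ - 2) * (2 * w i) ^ 2 =
          4 * γ * (γ + 1) * q1 ^ (-γ - 2) * qr w := by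
        unfold qr
        rw [Finset.mul_sum]
        exact Finset.sum_congr rfl fun i _ => by ring
      rw [e1]
      simp only [Finset.sum_const, Finset.card_univ, Fintype.card_fin, nsmul_eq_mul]
      rw [← hq1]
      field_simp
      ring
    rw [e, abs_div, abs_of_pos (by positivity : (0 : ℝ) < 2 * d), div_le_iff₀ (by positivity)]
    calc |∑ i, ((q1 + 2 * w i) ^ (-γ) + (q1 - 2 * w i) ^ (-γ) - 2 * q1 ^ (-γ) -
          γ * (γ + 1) * q1 ^ (-γ - 2) * (2 * w i) ^ 2)|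
        ≤ ∑ i, C1 * (q1 ^ (-γ - 4) * (2 * w i) ^ 4) :=
          (Finset.abs_sum_le_sum_abs _ _).trans (Finset.sum_le_sum fun i _ => hT i)
      _ = C1 * (q1 ^ (-γ - 4) * (16 * ∑ i, w i ^ 4)) := by
          rw [Finset.mul_sum, Finset.mul_sum, Finset.mul_sum]
          exact Finset.sum_congr rfl fun i _ => by ring
      _ ≤ C1 * (Q ^ (-γ - 4) * (16 * (4 * Q ^ 2))) := by
          refine mul_le_mul_of_nonneg_left ?_ hC1p
          have h1 : q1 ^ (-γ - 4) ≤ Q ^ (-γ - 4) :=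
            Real.rpow_le_rpow_of_nonpos hQ0 (by linarith) (by linarith)
          have h2 : ∑ i, w i ^ 4 ≤ 4 * Q ^ 2 := by
            refine (sum4 w).trans ?_
            nlinarith
          have h3 : 0 ≤ ∑ i, w i ^ 4 := Finset.sum_nonneg fun i _ => by positivity
          exact mul_le_mul h1 (by linarith) (by positivity) (Real.rpow_nonneg hQ0.le _)
      _ = 64 * C1 * Q ^ (-γ - 2) := by
          have : Q ^ (-γ - 2) = Q ^ (-γ - 4) * Q ^ 2 := by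
            rw [← Real.rpow_natCast, ← Real.rpow_add hQ0]
            congr 1
            push_cast
            ring
          rw [this]
          ring
      _ ≤ 32 * C1 * Q ^ (-γ - 2) * (2 * d) := by
          have h4 : 0 ≤ C1 * Q ^ (-γ - 2) := by positivity
          nlinarith
  -- the centre
  have hu : 1 / Q ∈ Set.Icc (0 : ℝ) 1 := ⟨by positivity, by rw [div_le_one hQ0]; exact hQ1⟩
  have hpw : ∀ m : ℝ, q1 ^ (-m) = Q ^ (-m) * (1 + 1 / Q) ^ (-m) := by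
    intro m
    rw [← Real.mul_rpow hQ0.le (by linarith [hu.1])]
    congr 1
    field_simp
    rw [hq1]
  have hC : |Q ^ (-γ) - q1 ^ (-γ) - γ * Q ^ (-γ - 1)| ≤ γ * (γ + 1) * Q ^ (-γ - 2) := by
    have h1 := one_bd γ hγ (1 / Q) hu
    have e1 : Q ^ (-γ - 1) = Q ^ (-γ) * (1 / Q) := by
      rw [Real.rpow_sub_one hQ0.ne']
      ring
    have e2 : Q ^ (-γ - 2) = Q ^ (-γ) * (1 / Q) ^ 2 := by
      rw [show -γ - 2 = -γ - (2 : ℕ) by norm_num, Real.rpow_sub_natCast hQ0.ne', one_div,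
        inv_pow]
      ring
    have hqm : 0 < Q ^ (-γ) := Real.rpow_pos_of_pos hQ0 _
    have e3 : Q ^ (-γ) - q1 ^ (-γ) - γ * Q ^ (-γ - 1) =
        -(Q ^ (-γ) * ((1 + 1 / Q) ^ (-γ) - 1 + γ * (1 / Q))) := by
      rw [hpw, e1]
      ring
    rw [e3, abs_neg, abs_mul, abs_of_pos hqm, e2]
    calc Q ^ (-γ) * |(1 + 1 / Q) ^ (-γ) - 1 + γ * (1 / Q)|
        ≤ Q ^ (-γ) * (γ * (γ + 1) * (1 / Q) ^ 2) := mul_le_mul_of_nonneg_left h1 hqm.le
      _ = _ := by ring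
  have hD : |q1 ^ (-γ - 2) - Q ^ (-γ - 2)| ≤ (γ + 2) * (γ + 4) * (Q ^ (-γ - 2) / Q) := by
    have h1 := mvt_bd (γ + 2) (by linarith) hu
    have h2 := hpw (γ + 2)
    rw [show -(γ + 2) = -γ - 2 by ring] at h1 h2
    rw [h2]
    have e3 : Q ^ (-γ - 2) * (1 + 1 / Q) ^ (-γ - 2) - Q ^ (-γ - 2) =
        Q ^ (-γ - 2) * ((1 + 1 / Q) ^ (-γ - 2) - 1) := by ring
    rw [e3, abs_mul, abs_of_pos hQg]
    calc Q ^ (-γ - 2) * |(1 + 1 / Q) ^ (-γ - 2) - 1|
        ≤ Q ^ (-γ - 2) * ((γ + 2) * (γ + 2 + 2) * (1 / Q)) :=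
          mul_le_mul_of_nonneg_left h1 hQg.le
      _ = _ := by ring
  have hE : |2 * γ * (γ + 1) / d * q1 ^ (-γ - 2) * qr w -
      2 * γ * (γ + 1) / d * Q ^ (-γ - 2) * qr w| ≤
      2 * γ * (γ + 1) * (2 * ((γ + 2) * (γ + 4))) * Q ^ (-γ - 2) := by
    have e : 2 * γ * (γ + 1) / d * q1 ^ (-γ - 2) * qr w -
        2 * γ * (γ + 1) / d * Q ^ (-γ - 2) * qr w =
        2 * γ * (γ + 1) / d * ((q1 ^ (-γ - 2) - Q ^ (-γ - 2)) * qr w) := by ring
    rw [e, abs_mul, abs_mul, abs_of_nonneg hqn,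
      abs_of_nonneg (by positivity : (0 : ℝ) ≤ 2 * γ * (γ + 1) / d)]
    have h1 : |q1 ^ (-γ - 2) - Q ^ (-γ - 2)| * qr w ≤
        (γ + 2) * (γ + 4) * (Q ^ (-γ - 2) / Q) * (2 * Q) :=
      mul_le_mul hD hq hqn (by positivity)
    have h2 : (γ + 2) * (γ + 4) * (Q ^ (-γ - 2) / Q) * (2 * Q) =
        2 * ((γ + 2) * (γ + 4)) * Q ^ (-γ - 2) := by
      field_simp
    rw [h2] at h1
    have h3 : 2 * γ * (γ + 1) / d ≤ 2 * γ * (γ + 1) := div_le_self (by positivity) hd1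
    calc 2 * γ * (γ + 1) / d * (|q1 ^ (-γ - 2) - Q ^ (-γ - 2)| * qr w)
        ≤ 2 * γ * (γ + 1) * (2 * ((γ + 2) * (γ + 4)) * Q ^ (-γ - 2)) :=
          mul_le_mul h3 h1 (by positivity) (by positivity)
      _ = _ := by ring
  -- assembly
  have hid : Q ^ (-γ) - PR (fun v => (qr v + a) ^ (-γ)) w -
      (γ * (d - 2 - 2 * γ) / d * Q ^ (-γ - 1) + 2 * γ * (γ + 1) * a / d * Q ^ (-γ - 2)) =
      (Q ^ (-γ) - q1 ^ (-γ) - γ * Q ^ (-γ - 1)) -
      (PR (fun v => (qr v + a) ^ (-γ)) w - q1 ^ (-γ) -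
        2 * γ * (γ + 1) / d * q1 ^ (-γ - 2) * qr w) -
      (2 * γ * (γ + 1) / d * q1 ^ (-γ - 2) * qr w -
        2 * γ * (γ + 1) / d * Q ^ (-γ - 2) * qr w) := by
    have e1 : Q ^ (-γ - 1) = Q ^ (-γ - 2) * Q := by
      nth_rewrite 3 [← Real.rpow_one Q]
      rw [← Real.rpow_add hQ0]
      congr 1
      ring
    have e2 : a = Q - qr w := by rw [hQ]; ring
    rw [e1, e2]
    field_simp
    ring
  rw [hid]
  have t1 := abs_sub ((Q ^ (-γ) - q1 ^ (-γ) - γ * Q ^ (-γ - 1)) -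
      (PR (fun v => (qr v + a) ^ (-γ)) w - q1 ^ (-γ) -
        2 * γ * (γ + 1) / d * q1 ^ (-γ - 2) * qr w))
      (2 * γ * (γ + 1) / d * q1 ^ (-γ - 2) * qr w -
        2 * γ * (γ + 1) / d * Q ^ (-γ - 2) * qr w)
  have t2 := abs_sub (Q ^ (-γ) - q1 ^ (-γ) - γ * Q ^ (-γ - 1))
      (PR (fun v => (qr v + a) ^ (-γ)) w - q1 ^ (-γ) -
        2 * γ * (γ + 1) / d * q1 ^ (-γ - 2) * qr w)
  nlinarith

end Pool.Agent.H42.BD
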