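import Pool.Agent.H3.BI.Stm1

/-!
# Project BD, part SYM: the order of the particles is irrelevant
-/

set_option autoImplicit false

open scoped ENNReal
open Finset

namespace Pool.Agent.H42.BD

open Pool.Agent.H3.BI

variable {d : ℕ}

/-- Invariance under permutations of the list. -/
def Inv (g : Cf d → ℝ≥0∞) : Prop :=
  ∀ (A : Finset (Site d)) (L L' : List (Site d)), L.Perm L' → g (A, L) = g (A, L')

/-- One step. -/
noncomputable def S1 (D : Set (Site d)) (x : Site d) (g : Cf d → ℝ≥0∞) (p : Cf d) : ℝ≥0∞ :=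
  (∑ e : Dir d, g (arr D (x + uvec e) p)) / (2 * d)

theorem steps_succ (D : Set (Site d)) (x : Site d) (k : ℕ) (g : Cf d → ℝ≥0∞) :
    steps D x (k + 1) g = S1 D x (steps D x k g) := by
  funext p; rfl

theorem inv_pair {g : Cf d → ℝ≥0∞} (hg : Inv g) {p q : Cf d} (h1 : p.1 = q.1)
    (h2 : p.2.Perm q.2) : g p = g q := by
  obtain ⟨A, L⟩ := p
  obtain ⟨B, M⟩ := q
  simp only at h1 h2
  subst h1
  exact hg _ _ _ h2

theorem arr_perm (D : Set (Site d)) (y : Site d) (A : Finset (Site d)) (L L' : List (Site d))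
    (h : L.Perm L') :
    (arr D y (A, L)).1 = (arr D y (A, L')).1 ∧
      (arr D y (A, L)).2.Perm (arr D y (A, L')).2 := by
  unfold arr
  simp only
  split_ifs
  · exact ⟨rfl, h.cons y⟩
  · exact ⟨rfl, h⟩
  · exact ⟨rfl, h⟩

theorem inv_arr {g : Cf d → ℝ≥0∞} (hg : Inv g) (D : Set (Site d)) (y : Site d)
    (A : Finset (Site d)) (L L' : List (Site d)) (h : L.Perm L') :
    g (arr D y (A, L)) = g (arr D y (A, L')) :=
  inv_pair hg (arr_perm D y A L L' h).1 (arr_perm D y A L L' h).2

theorem inv_S1 {g : Cf d → ℝ≥0∞} (hg : Inv g) (D : Set (Site d)) (x : Site d) :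
    Inv (S1 D x g) := by
  intro A L L' h
  unfold S1
  congr 1
  exact Finset.sum_congr rfl fun e _ => inv_arr hg D _ A L L' h

theorem inv_steps {g : Cf d → ℝ≥0∞} (hg : Inv g) (D : Set (Site d)) (x : Site d) (k : ℕ) :
    Inv (steps D x k g) := by
  induction k with
  | zero => exact hg
  | succ k ih => rw [steps_succ]; exact inv_S1 ih D x

theorem inv_top {g : Cf d → ℝ≥0∞} (hg : Inv g) (ν : PMF ℕ) (D : Set (Site d)) (x : Site d) :
    Inv (top ν D x g) := by
  intro A L L' h
  unfold top
  exact tsum_congr fun k => by rw [inv_steps hg D x k A L L' h]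

theorem arr_comm (D : Set (Site d)) (y z : Site d) (A : Finset (Site d)) (L : List (Site d)) :
    (arr D y (arr D z (A, L))).1 = (arr D z (arr D y (A, L))).1 ∧
      (arr D y (arr D z (A, L))).2.Perm (arr D z (arr D y (A, L))).2 := by
  by_cases hyz : y = z
  · subst hyz; exact ⟨rfl, List.Perm.refl _⟩
  have hzy : ¬ z = y := fun h => hyz h.symm
  unfold arr
  by_cases hy : y ∈ A <;> by_cases hz : z ∈ A <;> by_cases hyD : y ∈ D <;>
    by_cases hzD : z ∈ D <;>
    simp [hy, hz, hyD, hzD, hyz, hzy, List.Perm.swap, Finset.insert_comm]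

theorem S1_comm {g : Cf d → ℝ≥0∞} (hg : Inv g) (D : Set (Site d)) (x y : Site d) (p : Cf d) :
    S1 D x (S1 D y g) p = S1 D y (S1 D x g) p := by
  obtain ⟨A, L⟩ := p
  unfold S1
  simp only [div_eq_mul_inv, ← Finset.sum_mul]
  congr 2
  rw [Finset.sum_comm]
  refine Finset.sum_congr rfl fun e _ => Finset.sum_congr rfl fun e' _ => ?_
  exact inv_pair hg (arr_comm D _ _ A L).1 (arr_comm D _ _ A L).2

theorem S1_steps {g : Cf d → ℝ≥0∞} (hg : Inv g) (D : Set (Site d)) (x y : Site d) (k : ℕ) :
    S1 D x (steps D y k g) = steps D y k (S1 D x g) := by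
  induction k with
  | zero => rfl
  | succ k ih =>
    rw [steps_succ, steps_succ, ← ih]
    funext p
    exact S1_comm (inv_steps hg D y k) D x y p

theorem steps_comm {g : Cf d → ℝ≥0∞} (hg : Inv g) (D : Set (Site d)) (x y : Site d) (j k : ℕ) :
    steps D x j (steps D y k g) = steps D y k (steps D x j g) := by
  induction j with
  | zero => rfl
  | succ j ih =>
    rw [steps_succ, steps_succ, ih, S1_steps (inv_steps hg D x j)]

theorem steps_tsum (D : Set (Site d)) (x : Site d) (j : ℕ) (c : ℕ → ℝ≥0∞)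
    (G : ℕ → Cf d → ℝ≥0∞) (p : Cf d) :
    steps D x j (fun q => ∑' k, c k * G k q) p = ∑' k, c k * steps D x j (G k) p := by
  induction j generalizing p with
  | zero => rfl
  | succ j ih =>
    rw [steps_succ]
    unfold S1
    simp only [ih]
    rw [← Summable.tsum_finsetSum (fun _ _ => ENNReal.summable), div_eq_mul_inv,
      ← ENNReal.tsum_mul_right]
    refine tsum_congr fun k => ?_
    rw [← Finset.mul_sum, steps_succ, mul_assoc]
    rfl

theorem top_comm {g : Cf d → ℝ≥0∞} (hg : Inv g) (ν : PMF ℕ) (D : Set (Site d)) (x y : Site d)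
    (p : Cf d) : top ν D x (top ν D y g) p = top ν D y (top ν D x g) p := by
  have h1 : ∀ (a b : Site d), top ν D a (top ν D b g) p =
      ∑' j, ∑' k, ν j * ν k * steps D a j (steps D b k g) p := by
    intro a b
    unfold top
    refine tsum_congr fun j => ?_
    rw [steps_tsum, ← ENNReal.tsum_mul_left]
    exact tsum_congr fun k => by ring
  rw [h1, h1, ENNReal.tsum_comm]
  refine tsum_congr fun j => tsum_congr fun k => ?_
  rw [steps_comm hg, mul_comm (ν k) (ν j)]

theorem steps_cons {g : Cf d → ℝ≥0∞} (hg : Inv g) (D : Set (Site d)) (x y : Site d) (k : ℕ)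
    (A : Finset (Site d)) (L : List (Site d)) :
    steps D x k g (A, y :: L) = steps D x k (fun q => g (q.1, y :: q.2)) (A, L) := by
  induction k generalizing A L with
  | zero => rfl
  | succ k ih =>
    rw [steps_succ, steps_succ]
    unfold S1
    congr 1
    refine Finset.sum_congr rfl fun e _ => ?_
    have h2 : steps D x k g (arr D (x + uvec e) (A, y :: L)) =
        steps D x k g ((arr D (x + uvec e) (A, L)).1, y :: (arr D (x + uvec e) (A, L)).2) := by
      refine inv_pair (inv_steps hg D x k) ?_ ?_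
      · unfold arr; simp only; split_ifs <;> rfl
      · unfold arr; simp only; split_ifs
        · exact List.Perm.swap _ _ _
        · exact List.Perm.refl _
        · exact List.Perm.refl _
    rw [h2, ih]

theorem top_cons {g : Cf d → ℝ≥0∞} (hg : Inv g) (ν : PMF ℕ) (D : Set (Site d)) (x y : Site d)
    (A : Finset (Site d)) (L : List (Site d)) :
    top ν D x g (A, y :: L) = top ν D x (fun q => g (q.1, y :: q.2)) (A, L) := by
  unfold top
  exact tsum_congr fun k => by rw [steps_cons hg]

theorem steps_zero_fun (D : Set (Site d)) (x : Site d) (k : ℕ) (p : Cf d) :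
    steps D x k (fun _ => 0) p = 0 := by
  induction k generalizing p with
  | zero => rfl
  | succ k ih => rw [steps_succ]; unfold S1; simp [ih]

theorem top_zero_fun (ν : PMF ℕ) (D : Set (Site d)) (x : Site d) (p : Cf d) :
    top ν D x (fun _ => 0) p = 0 := by
  unfold top
  simp [steps_zero_fun]

theorem inv_Ph_zero (ν : PMF ℕ) (D : Set (Site d)) (f : Finset (Site d) → ℝ≥0∞) :
    Inv (Ph ν D f 0) := by
  intro A L L' h
  cases L with
  | nil => rw [(List.nil_perm.1 h)]
  | cons x L =>
    cases L' with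
    | nil => exact absurd h.symm (by simp)
    | cons y L' => simp

theorem inv_Ph_succ (ν : PMF ℕ) (D : Set (Site d)) (f : Finset (Site d) → ℝ≥0∞) (n : ℕ)
    (hn : Inv (Ph ν D f n)) (hm : ∀ m, m + 1 = n → Inv (Ph ν D f m)) :
    Inv (Ph ν D f (n + 1)) := by
  intro A L L' h
  induction h generalizing A with
  | nil => rfl
  | cons x h ih =>
    rw [Ph_succ_cons, Ph_succ_cons]
    exact inv_top hn ν D x A _ _ h
  | swap x y L =>
    rw [Ph_succ_cons, Ph_succ_cons, top_cons hn, top_cons hn]
    cases n with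
    | zero =>
      simp only [Ph_zero_cons, top_zero_fun]
    | succ m =>
      have e : ∀ z : Site d, (fun q : Cf d => Ph ν D f (m + 1) (q.1, z :: q.2)) =
          top ν D z (Ph ν D f m) := by
        intro z
        funext q
        rw [Ph_succ_cons]
      rw [e, e]
      exact top_comm (hm m rfl) ν D y x (A, L)
  | trans _ _ ih1 ih2 => rw [ih1, ih2]

theorem inv_Ph (ν : PMF ℕ) (D : Set (Site d)) (f : Finset (Site d) → ℝ≥0∞) (n : ℕ) :
    Inv (Ph ν D f n) := by
  induction n using Nat.strong_induction_on with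
  | _ n ih =>
    cases n with
    | zero => exact inv_Ph_zero ν D f
    | succ n =>
      exact inv_Ph_succ ν D f n (ih n (Nat.lt_succ_self n)) fun m hm => ih m (by omega)

/-- **Part SYM.** -/
theorem part_SYM : S_SYM := by
  intro d ν D f n A L L' _ h
  exact inv_Ph ν D f n A L L' h

end Pool.Agent.H42.BD
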